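import Pool.Agent.H315R2.EB.Stubs

/-! HOM (helper51): homotheties act through powers of the uniformiser. -/

namespace Pool.Agent.H315R2.EB

open Module
open scoped Pointwise

theorem HOM_proof (hV : St_VAL) : St_HOM := by
  intro O K V _ _ _ _ _ _ _ _ _ _ _ p hp
  obtain ⟨h1, h2⟩ := hV O K p hp
  have hsm : ∀ (c : Kˣ) (s : V), c • s = (c : K) • s := fun c s => rfl
  have hmem : ∀ (c : Kˣ) (L : Submodule O V) (x : V), x ∈ c • L ↔ ∃ s ∈ L, c • s = x :=
    fun c L x => Submodule.mem_smul_pointwise_iff_exists x (c : K) L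
  have key : ∀ c : Kˣ, ∃ k : ℤ, ∀ L : Submodule O V, c • L = p ^ k • L := by
    intro c
    obtain ⟨u, k, hc⟩ := h1 c
    refine ⟨k, fun L => ?_⟩
    have e1 : ∀ s : V, c • s = p ^ k • ((u : O) • s) := by
      intro s
      rw [hsm, hsm, hc, mul_comm, mul_smul, algebraMap_smul]
    ext x
    rw [hmem, hmem]
    constructor
    · rintro ⟨s, hs, rfl⟩
      exact ⟨(u : O) • s, L.smul_mem _ hs, (e1 s).symm⟩
    · rintro ⟨s, hs, rfl⟩
      refine ⟨((u⁻¹ : Oˣ) : O) • s, L.smul_mem _ hs, ?_⟩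
      rw [e1, smul_smul, Units.mul_inv, one_smul]
  have h3 : ∀ (L : Lat O K V) (k : ℤ), 0 ≤ k → p ^ k • L.1 ≤ L.1 := by
    intro L k hk x hx
    rw [hmem] at hx
    obtain ⟨s, hs, rfl⟩ := hx
    obtain ⟨y, hy⟩ := (h2 k).2 hk
    have e1 : p ^ k • s = y • s := by
      rw [hsm, ← hy, algebraMap_smul]
    rw [e1]
    exact L.1.smul_mem _ hs
  refine ⟨key, ?_, h3, ?_⟩
  · intro L L'
    constructor
    · intro h
      obtain ⟨c, hc⟩ : ∃ c : Kˣ, L'.1 = c • L.1 := Quotient.exact h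
      obtain ⟨k, hk⟩ := key c
      exact ⟨k, by rw [hc, hk]⟩
    · rintro ⟨k, hk⟩
      exact Quotient.sound ⟨p ^ k, hk⟩
  · intro hdim L
    have hle : p • L.1 ≤ L.1 := by
      have := h3 L 1 (by norm_num)
      rwa [zpow_one] at this
    refine lt_of_le_of_ne hle fun heq => ?_
    obtain ⟨ϖ, hϖ, hpϖ⟩ := hp
    have hfg : L.1.FG := L.2.fg
    have h4 : L.1 ≤ (IsLocalRing.maximalIdeal O) • L.1 := by
      intro x hx
      rw [← heq, hmem] at hx
      obtain ⟨s, hs, rfl⟩ := hx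
      have e1 : p • s = ϖ • s := by
        rw [hsm, ← hpϖ, algebraMap_smul]
      rw [e1]
      refine Submodule.smul_mem_smul ?_ hs
      rw [IsLocalRing.mem_maximalIdeal]
      exact hϖ.not_isUnit
    have h5 : L.1 = ⊥ := Submodule.eq_bot_of_le_smul_of_le_jacobson_bot _ _ hfg h4
      (IsLocalRing.maximalIdeal_le_jacobson _)
    have h6 : Submodule.span K (L.1 : Set V) = ⊤ := L.2.span_eq_top
    rw [h5] at h6
    simp only [Submodule.bot_coe, Submodule.span_zero_singleton] at h6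
    have h7 : finrank K V = 0 := by
      rw [← finrank_top K V, ← h6, finrank_bot]
    omega

end Pool.Agent.H315R2.EB
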